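import Pool.Agent.U707.LI.All
import Pool.Agent.U707.LI.StmL

/-!
# Modularity from any combination of Hecke eigensystems on a set of places of positive density

`E` is an elliptic curve over the number field `K` (for instance imaginary quadratic) without
complex multiplication over any extension, `a_v(E) = N v + 1 - #E(𝔽_v)`; `f_i` are
finitely many Hecke eigensystems with coefficients in a field `F` (for instance the eigensystems of
Bianchi newforms, of any weights, levels and Nebentypus, or of Eisenstein series), `a_v(f_i)` the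
eigenvalues and `R_i` the two-dimensional `p`-adic representations. If
`a_v(E) = ∑ c_i a_v(f_i)`, with coefficients `c_i` in `F`, for the places `v` of a set of
positive upper density, then there are an `i` with `c_i ≠ 0` and a character `χ` of finite order with
`a_v(f_i) = χ(Frob_v) a_v(E)` for almost all `v`. So `E` is modular by the form `f_i ⊗ χ⁻¹`. If
`f_i` has the same determinant as `E` (weight two and trivial Nebentypus), then
`χ² = 1`: `E` or a quadratic twist is modular by `f_i`.

In other words: it is enough to find ANY cusp form, not necessarily an eigenform, of any weight and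
level, the `v`-th Fourier coefficients of which are the `a_v(E)` for a positive proportion of the `v`.

Parts of the proof are by helper140, helper784, helper187, helper612, helper94, helper200 (see
`Pool.Agent.U707.LI.All`).
-/

set_option autoImplicit false

namespace Pool.Agent.Results.MP_87c685_nt.AnyCuspForm

open NumberField IsDedekindDomain Module Pool.Agent.W401.Cheb Pool.Agent.U707 Pool.Agent.U707.LI

/-- **Modularity from any combination of Hecke eigensystems.** -/
theorem result {K : Type} [Field K] [NumberField K]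
    -- the elliptic curve, its minimal models and its `p`-adic representation
    (E : WeierstrassCurve K) [E.IsElliptic]
    (M : HeightOneSpectrum (𝓞 K) → WeierstrassCurve (𝓞 K)) (_hM : MinimalModels E M)
    {p : ℕ} [Fact p.Prime] (V : LI.Rep K (PadicAlgCl p)) (hV2 : finrank (PadicAlgCl p) V.V = 2)
    (hV : V.StronglyIrreducible)
    (hEV : ∃ B : Set (HeightOneSpectrum (𝓞 K)), B.Finite ∧ ∀ v ∉ B, ∀ φ, GeoFrob v φ →
      V.tr φ = av M v)
    -- the Hecke eigensystems and their representations
    {F : Type} [Field F] (τ : F →+* PadicAlgCl p) {ι : Type} [Fintype ι]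
    (a : ι → HeightOneSpectrum (𝓞 K) → F) (R : ι → LI.Rep K (PadicAlgCl p))
    (hR2 : ∀ i, finrank (PadicAlgCl p) (R i).V = 2)
    (hR : ∃ B : Set (HeightOneSpectrum (𝓞 K)), B.Finite ∧ ∀ v ∉ B, ∀ φ, GeoFrob v φ → ∀ i,
      (R i).tr φ = τ (a i v))
    -- the relation
    (c : ι → F) {P : Set (HeightOneSpectrum (𝓞 K))} (hP : PosDensity P)
    (h : ∀ v ∈ P, (av M v : F) = ∑ i, c i * a i v) :
    ∃ i, c i ≠ 0 ∧ ∃ χ : GK K →* (PadicAlgCl p)ˣ, IsOpen (χ.ker : Set (GK K)) ∧
      (∀ g, (R i).tr g = χ g * V.tr g) ∧
      (∃ B : Set (HeightOneSpectrum (𝓞 K)), B.Finite ∧ ∀ v ∉ B, ∀ φ, GeoFrob v φ →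
        τ (a i v) = χ φ * av M v) ∧
      ((∀ g, LinearMap.det ((R i).ρ g) = LinearMap.det (V.ρ g)) → ∀ g, χ g ^ 2 = 1) := by
  obtain ⟨B, hB, hEV⟩ := hEV
  obtain ⟨B', hB', hR⟩ := hR
  have hP' : PosDensity (P \ (B ∪ B')) :=
    hP.mono (hB.union hB') fun v hv hvB => ⟨hv, hvB⟩
  obtain ⟨i, hi, χ, hχ, h1, h2⟩ := twist sHAAR sCHEB sTRANS sIND sTW V hV R (fun i => τ (c i))
    (fun i => (hR2 i).trans hV2.symm) hP' (by
      rintro v ⟨hv, hvB⟩ φ hφ
      have h3 := congrArg τ (h v hv)
      rw [map_intCast, map_sum] at h3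
      rw [hEV v (fun h => hvB (Or.inl h)) φ hφ, h3]
      refine Finset.sum_congr rfl fun i _ => ?_
      rw [map_mul, hR v (fun h => hvB (Or.inr h)) φ hφ i])
  refine ⟨i, fun h0 => hi (by rw [h0, map_zero]), χ, hχ, h1, ⟨B ∪ B', hB.union hB',
    fun v hv φ hφ => ?_⟩, fun hdet g => ?_⟩
  · rw [← hR v (fun h => hv (Or.inr h)) φ hφ i, h1, hEV v (fun h => hv (Or.inl h)) φ hφ]
  · have h3 := h2 g
    rw [hdet g, hV2] at h3
    have h4 : LinearMap.det (V.ρ g) ≠ 0 := by
      intro h0
      have h5 : LinearMap.det (V.ρ g) * LinearMap.det (V.ρ g⁻¹) = 1 := by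
        rw [← map_mul, ← map_mul, mul_inv_cancel, map_one, map_one]
      rw [h0, zero_mul] at h5
      exact zero_ne_one h5
    have h6 : ((χ g : PadicAlgCl p)) ^ 2 = 1 := by
      have := mul_right_cancel₀ h4 ((one_mul _).trans h3)
      exact this.symm
    exact Units.ext (by simpa using h6)

end Pool.Agent.Results.MP_87c685_nt.AnyCuspForm
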