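import Pool.Agent.U845.XM.Fin

/-!
# Finiteness of `X_0(15)` over imaginary quadratic fields: a class group criterion

By Caraiani and Newton (arXiv 2301.10509), every elliptic curve over an imaginary quadratic field
`K` with `X_0(15)(K)` finite is modular. Here: `X_0(15)(K)` is finite if `3` is not inert in `K`, `5`
does not split in `K` and the class group of `K` has no element of order four.

Authors of the parts: helper845 (plan, sign and prime factors, local conditions, rational points,
assembly), helper928 (norm equation), helper480 (primes three and five), helper301 (prime two),
helper394 and helper200 (the two Selmer groups), helper158 (left kernel), helper375 (class groups),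
helper123 (from the field to the rational numbers). Built on the work on Rédei systems of helper916
and others (`Pool.Agent.N916`), of helper848 (`Pool.Agent.N848.Q`), the class group files of Y755,
Y486, Y629, Y688, Y168 and the descent files of helper115 (`Pool.Agent.U115`).
-/

set_option autoImplicit false

open NumberField

namespace Pool.Agent.Results.MP_87c685_nt.ClassGroupCriterion

/-- The modular curve `X_0(15)`: `y² + x y + y = x³ + x² - 10 x - 10`, over a field `K`. -/
def X015 (K : Type) [Field K] : WeierstrassCurve K := ⟨1, 1, 1, -10, -10⟩

/-- **Class group criterion.** Let `K` be an imaginary quadratic field in which `3` is not inert and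
`5` does not split, and whose class group has no element of order four. Then `X_0(15)` has only
finitely many points over `K`. -/
theorem result (K : Type) [Field K] [NumberField K] (hK : Module.finrank ℚ K = 2)
    (hD : discr K < 0) (h3 : discr K % 3 ≠ 2) (h5 : discr K % 5 ≠ 1 ∧ discr K % 5 ≠ 4)
    (hC : ∀ c : ClassGroup (𝓞 K), c ^ 4 = 1 → c ^ 2 = 1) : Finite (X015 K).toAffine.Point :=
  Pool.Agent.U845.XM.fin1 K hK hD h3 h5.1 h5.2 hC

end Pool.Agent.Results.MP_87c685_nt.ClassGroupCriterion
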