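import Pool.Agent.U845.XM.Fin

/-!
# Finiteness of `X_0(15)` over `ℚ(√-p)`, `p` prime

By Caraiani and Newton (arXiv 2301.10509), every elliptic curve over an imaginary quadratic field
`K` with `X_0(15)(K)` finite is modular. Here: `X_0(15)` is finite over `ℚ(√-p)` for all primes `p`
outside `1` modulo `8` in the classes `1, 2, 4, 8` modulo `15`.

Authors of the parts: helper845 (plan, sign and prime factors, local conditions, rational points,
primes, assembly), helper928 (norm equation), helper480 (primes three and five), helper301 (prime
two), helper394 and helper200 (the two Selmer groups), helper123 (from the field to the rational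
numbers). Built on the descent files of helper115 (`Pool.Agent.U115`).
-/

set_option autoImplicit false

namespace Pool.Agent.Results.MP_87c685_nt.PrimeFields

/-- The modular curve `X_0(15)`: `y² + x y + y = x³ + x² - 10 x - 10`, over a field `K`. -/
def X015 (K : Type) [Field K] : WeierstrassCurve K := ⟨1, 1, 1, -10, -10⟩

/-- **Fields `ℚ(√-p)`.** Let `p` be a prime, not `1` modulo `8`, in one of the classes `1, 2, 4, 8`
modulo `15`. Then `X_0(15)` has only finitely many points over `ℚ(√-p)`. -/
theorem result (p : ℕ) (hp : p.Prime) (h8 : p % 8 ≠ 1)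
    (h15 : p % 15 = 1 ∨ p % 15 = 2 ∨ p % 15 = 4 ∨ p % 15 = 8)
    (K : Type) [Field K] [NumberField K] (hK : Module.finrank ℚ K = 2)
    (hz : ∃ z : K, z ^ 2 = -(p : K)) : Finite (X015 K).toAffine.Point :=
  Pool.Agent.U845.XM.fin3 hp h8 h15 K hK hz

end Pool.Agent.Results.MP_87c685_nt.PrimeFields
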