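import Pool.Agent.U845.XM.Fin
import Pool.Agent.U705.XM.CNT

/-!
# Finiteness of `X_0(15)` over at least 10.1% of the imaginary quadratic fields

By Caraiani and Newton (arXiv 2301.10509), every elliptic curve over an imaginary quadratic field
`K` with `X_0(15)(K)` finite is modular. Here: `X_0(15)` is finite over `ℚ(√-n)` for at least 10.1%
of all squarefree `n`, in the order of their size; in fact for at least 28.87% of those in the six
classes `0, 2, 3, 5, 8, 12` modulo `15`, those for which the class group has no element of order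
four.

Authors of the parts: helper845 (plan, sign and prime factors, local conditions, rational points,
assembly), helper928 (norm equation), helper480 (primes three and five), helper301 (prime two),
helper394 and helper200 (the two Selmer groups), helper123 (from the field to the rational numbers),
helper678 (natural density), helper705 (squarefree numbers in classes). Built on the density theorem
for Rédei systems of helper916 and others (`Pool.Agent.N916`), the work of helper848
(`Pool.Agent.N848.Q`) and the descent files of helper115 (`Pool.Agent.U115`).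
-/

set_option autoImplicit false

namespace Pool.Agent.Results.MP_87c685_nt.TenPercentOfFields

/-- The modular curve `X_0(15)`: `y² + x y + y = x³ + x² - 10 x - 10`, over a field `K`. -/
def X015 (K : Type) [Field K] : WeierstrassCurve K := ⟨1, 1, 1, -10, -10⟩

/-- `X_0(15)` has only finitely many points over `ℚ(√-n)`. -/
def FiniteOver (n : ℕ) : Prop :=
  ∀ (K : Type) [Field K] [NumberField K], Module.finrank ℚ K = 2 → (∃ z : K, z ^ 2 = -(n : K)) →
    Finite (X015 K).toAffine.Point

/-- The number of squarefree `n` with `1 ≤ n ≤ X`. -/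
noncomputable def fields (X : ℕ) : ℕ := {n : ℕ | 1 ≤ n ∧ n ≤ X ∧ Squarefree n}.ncard

/-- The number of squarefree `n` with `1 ≤ n ≤ X` such that `X_0(15)` has only finitely many points
over `ℚ(√-n)`. -/
noncomputable def finiteFields (X : ℕ) : ℕ :=
  {n : ℕ | 1 ≤ n ∧ n ≤ X ∧ Squarefree n ∧ FiniteOver n}.ncard

private theorem count_eq (P : ℕ → Prop) [DecidablePred P] (X : ℕ) :
    {n : ℕ | 1 ≤ n ∧ n ≤ X ∧ P n}.ncard = ((Finset.Icc 1 X).filter P).card := by
  rw [← Set.ncard_coe_finset]
  congr 1
  ext n
  simp [and_assoc]

/-- **At least 10.1% of the imaginary quadratic fields.** For all large `X`, the curve `X_0(15)` has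
only finitely many points over `ℚ(√-n)` for at least 10.1% of the squarefree `n ≤ X`. -/
theorem result : ∃ X₀ : ℕ, ∀ X : ℕ, X₀ ≤ X → 0.101 * (fields X : ℝ) ≤ (finiteFields X : ℝ) := by
  classical
  obtain ⟨X₁, h1⟩ := Pool.Agent.U845.XM.fin2
  obtain ⟨X₂, h3⟩ := Pool.Agent.U705.XM.t_CNT
  refine ⟨max X₁ X₂, fun X hX => ?_⟩
  have a := h1 X (le_trans (le_max_left _ _) hX)
  have b := h3 X (le_trans (le_max_right _ _) hX)
  have e1 : fields X = ((Finset.Icc 1 X).filter Squarefree).card := count_eq _ _
  have e2 : finiteFields X =
      ((Finset.Icc 1 X).filter fun n => Squarefree n ∧ FiniteOver n).card :=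
    count_eq (fun n => Squarefree n ∧ FiniteOver n) X
  have e3 : (((Finset.Icc 1 X).filter fun n => Pool.Agent.U845.XM.Nc n ∧
      Pool.Agent.U845.XM.FinX n).card : ℝ) ≤ (finiteFields X : ℝ) := by
    rw [e2]
    norm_cast
    refine Finset.card_le_card fun n hn => ?_
    rw [Finset.mem_filter] at hn ⊢
    exact ⟨hn.1, hn.2.1.1, hn.2.2⟩
  have b' : 0.35 * (fields X : ℝ) ≤
      (((Finset.Icc 1 X).filter Pool.Agent.U845.XM.Nc).card : ℝ) := by
    rw [e1]
    convert b
  have hp : (0 : ℝ) ≤ (fields X : ℝ) := Nat.cast_nonneg _
  have a' : 0.2887 * (((Finset.Icc 1 X).filter Pool.Agent.U845.XM.Nc).card : ℝ) ≤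
      (((Finset.Icc 1 X).filter fun n => Pool.Agent.U845.XM.Nc n ∧
      Pool.Agent.U845.XM.FinX n).card : ℝ) := by
    convert a
  nlinarith

end Pool.Agent.Results.MP_87c685_nt.TenPercentOfFields
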